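import Pool.Agent.Helper40.Ct.Goals

/-! Packet EV3: the number of facets that count. -/

set_option autoImplicit false

open Finset

namespace Pool.Agent.Helper69.Ct

open Pool.Agent.Helper40.Ct

theorem card_fix (r : ℕ) (a : Fin (r + 1)) :
    Nat.card {σ : Equiv.Perm (Fin (r + 1)) // σ 0 = a} = r.factorial := by
  have e : Equiv.Perm (Fin r) ≃ {σ : Equiv.Perm (Fin (r + 1)) // σ 0 = a} :=
    { toFun := fun τ => ⟨Equiv.Perm.decomposeFin.symm (a, τ),
        Equiv.Perm.decomposeFin_symm_apply_zero _ _⟩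
      invFun := fun σ => (Equiv.Perm.decomposeFin σ.1).2
      left_inv := by
        intro τ
        simp
      right_inv := by
        rintro ⟨σ, hσ⟩
        apply Subtype.ext
        show Equiv.Perm.decomposeFin.symm (a, (Equiv.Perm.decomposeFin σ).2) = σ
        have h1 : (Equiv.Perm.decomposeFin σ).1 = a := by
          rw [← hσ]
          conv_rhs => rw [← Equiv.symm_apply_apply Equiv.Perm.decomposeFin σ]
          rw [← Prod.mk.eta (p := Equiv.Perm.decomposeFin σ),
            Equiv.Perm.decomposeFin_symm_apply_zero]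
        rw [← h1, Prod.mk.eta, Equiv.symm_apply_apply] }
  rw [← Nat.card_congr e, Nat.card_eq_fintype_card, Fintype.card_perm, Fintype.card_fin]

/-- The linked families starting at `a`. -/
def Lk (r d : ℕ) (a : Fin (r + 1)) (π : Fin (d + 1) → Equiv.Perm (Fin (r + 1))) : Prop :=
  π 0 0 = a ∧ ∀ s : Fin d, π s.succ 0 = π s.castSucc (Fin.last r)

/-- Splitting off the first permutation. -/
def splitE (r d : ℕ) (a : Fin (r + 1)) :
    {π : Fin (d + 2) → Equiv.Perm (Fin (r + 1)) // Lk r (d + 1) a π} ≃
      Σ σ : {σ : Equiv.Perm (Fin (r + 1)) // σ 0 = a},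
        {π : Fin (d + 1) → Equiv.Perm (Fin (r + 1)) // Lk r d (σ.1 (Fin.last r)) π} where
  toFun π := ⟨⟨π.1 0, π.2.1⟩, ⟨fun s => π.1 s.succ, by
    refine ⟨?_, fun s => ?_⟩
    · have := π.2.2 0
      simpa using this
    · have := π.2.2 s.succ
      rw [← Fin.succ_castSucc] at this
      exact this⟩⟩
  invFun q := ⟨Fin.cons q.1.1 q.2.1, by
    refine ⟨?_, fun s => ?_⟩
    · rw [Fin.cons_zero]
      exact q.1.2
    · refine Fin.cases ?_ (fun s => ?_) s
      · rw [Fin.cons_succ, Fin.castSucc_zero, Fin.cons_zero]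
        exact q.2.2.1
      · rw [Fin.cons_succ, ← Fin.succ_castSucc, Fin.cons_succ]
        exact q.2.2.2 s⟩
  left_inv := by
    rintro ⟨π, hπ⟩
    apply Subtype.ext
    exact Fin.cons_self_tail π
  right_inv := by
    rintro ⟨⟨σ, hσ⟩, ⟨π, hπ⟩⟩
    rfl

theorem card_lk (r : ℕ) : ∀ (d : ℕ) (a : Fin (r + 1)),
    Nat.card {π : Fin (d + 1) → Equiv.Perm (Fin (r + 1)) // Lk r d a π}
      = r.factorial ^ (d + 1)
  | 0, a => by
    have e : {π : Fin (0 + 1) → Equiv.Perm (Fin (r + 1)) // Lk r 0 a π} ≃
        {σ : Equiv.Perm (Fin (r + 1)) // σ 0 = a} :=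
      { toFun := fun π => ⟨π.1 0, π.2.1⟩
        invFun := fun σ => ⟨fun _ => σ.1, σ.2, fun s => s.elim0⟩
        left_inv := by
          rintro ⟨π, hπ⟩
          apply Subtype.ext
          funext s
          show π 0 = π s
          have hs : s = 0 := by
            apply Fin.ext
            have := s.2
            simp only [Fin.val_zero]
            omega
          rw [hs]
        right_inv := fun σ => rfl }
    rw [Nat.card_congr e, card_fix]
    simp
  | d + 1, a => by
    rw [Nat.card_congr (splitE r d a), Nat.card_sigma]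
    rw [Finset.sum_congr rfl (fun σ _ => card_lk r d _), Finset.sum_const, Finset.card_univ,
      ← Nat.card_eq_fintype_card, card_fix, smul_eq_mul, pow_succ' _ (d + 1)]

theorem ev3 : EV3 := by
  intro d r _
  exact card_lk r d 0

end Pool.Agent.Helper69.Ct
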